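import Pool.Agent.K6.H33.PT.AsmW
import Pool.Agent.K6.H93.NT.PQ
import Pool.Agent.K6.H35.NT.LB

set_option autoImplicit false

/-! # The local monodromy conjecture for all products of powers of nested minors

Let `Δ_1, ..., Δ_n` be the leading principal minors of the generic `n × n` matrix and
`f = Δ_1 ^ (a_1) ⋯ Δ_n ^ (a_n)` (`minorPowers`),
a germ at the origin, with arbitrary exponents `a_1, ..., a_n ≥ 0`.

The local topological zeta function is defined as by Denef and Loeser, from the local motivic zeta
function `Z_mot(T) = ∑_d [X_d] 𝕃 ^ (-N d) T ^ d` in `𝓜[[T]]`, `X_d` the `d`-jets with origin `0` on which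
`f` has the order `d` (`zetaM f {0} {c | c ≠ 0}`), `𝓜` the Grothendieck ring of complex varieties,
localised at `𝕃`: `Z_top(s) = χ(Z_mot(𝕃 ^ (-s)))` for `s = 1, 2, 3, …`. For this, let `E` be a
homomorphism from `𝓜` to a domain `R` with `E(𝕃) ≠ 1`, such as the Hodge-Deligne polynomial
`E(u, v)`, and `ε` a homomorphism from `R` to `ℂ` with `ε(E(𝕃)) = 1`, such as `u, v ↦ 1`, so that
`ε ∘ E` is the Euler characteristic `χ` (`IsTopZeta`).

Every pole `s₀` is one of the numbers `-(j - k + 1) / (a_k + ... + a_j)`, `k ≤ j`, `a_j > 0`, and for every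
polynomial `b` of a local functional equation, in particular for the local Bernstein-Sato polynomial
`b_f`, there is an integer `i ≥ 0` with `b(s₀ + i) = 0`. By the theorem of Malgrange and Kashiwara,
`exp(2 π i s₀)` is then an eigenvalue of the monodromy of `f` at points of `f = 0` near the origin, which
is the monodromy conjecture for `f`.

No resolution of singularities is used.

* The motivic zeta function (`K6/H33/NT`). The states of the recursion (`Gs`) are a partial row with `m`
  entries and `N` full rows with `N + 1` entries; the polynomials are the minors of the first `q + 1`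
  columns with the partial row, `q < m`, and without it, `q ≥ m`. The jets on which an entry of the
  partial row is a unit are reduced by elimination to a state with a shorter partial row (`piv`,
  `pieceQ`); the jets on which the partial row vanishes at the origin are divided by the parameter in
  the entries of the partial row only (`pieceS`), which gives the factor
  `(𝕃 - 1) / (1 - 𝕃 ^ (-m) T ^ A)`, `A` the sum of `m` consecutive exponents. When the partial row
  is empty the next full row becomes the partial row.
* The roots (`weak_minors`, `bf_pow`, `root_hom_ext`): the Gaussian integral of `|f| ^ (2 s)` is an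
  explicit quotient of products of values of `Γ` with poles at all these numbers. For a homogeneous
  polynomial `g` the poles less than one to the left of the largest one are roots of every polynomial `b`
  with `b(s) g ^ s = P(s) g ^ (s + 1)`, by integration by parts over the ball for natural `s`, Carlson's
  theorem and Landau's lemma. For `g = f ^ N` with large `N` these are all the numbers above, divided by
  `N`, and `b(N s) b(N s + 1) ⋯ b(N s + N - 1)` is such a polynomial for `f ^ N` if `b` is one for `f`.
  Functional equations with power series coefficients are reduced to the Weyl algebra by taking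
  homogeneous components (`pieceL`).

`root_hom_ext` is by helper7, `pieceQ`, `pieceL`, `pieceJ` by helper93, helper35, helper75. -/

namespace Pool.Agent.Results.MP_aa7fc1_ag.NestedMinorsAllExponents

open MvPolynomial Pool.Agent.H628R4.TP Pool.Agent.TH192.DT Pool.Agent.TH192.MT
  Pool.Agent.TH192.MU Pool.Agent.W428.MOT

/-- The polynomial `Δ_1 ^ (a 0) ⋯ Δ_n ^ (a (n - 1))`, `Δ_{k + 1}` the determinant of the `x_{i j}`,
`i, j ≤ k`. -/
noncomputable def minorPowers {n : ℕ} (a : Fin n → ℕ) : MvPolynomial (Fin n × Fin n) ℤ :=
  ∏ k : Fin n, Matrix.det (Matrix.of fun i j : Fin ((k : ℕ) + 1) =>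
    (X (Fin.castLE k.isLt i, Fin.castLE k.isLt j) : MvPolynomial (Fin n × Fin n) ℤ)) ^ a k

/-- **The monodromy conjecture for the local topological zeta function of a product of powers of nested
minors at the origin**, in terms of the roots of `b`. There is exactly one rational function `Z` with
`Z(s) = ε(E(Z_mot(𝕃 ^ (-s))))` for `s = 1, 2, 3, …`; for each of its poles `s₀`, which is one of the
`-(j - k + 1) / (a_k + ... + a_j)`, `a_j > 0`, and every `b` which satisfies a functional equation
`b(s) f ^ s = P(s) f ^ (s + 1)`, where `P(s)` is a differential operator with formal power series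
coefficients at the origin, there is a natural number `i` with `b(s₀ + i) = 0`. -/
theorem result {n : ℕ} (a : Fin n → ℕ)
    (R : Type) [CommRing R] [IsDomain R] (E : MK ℂ →+* R) (ε : R →+* ℂ)
    (hε : ε (E ((Lu ℂ : (MK ℂ)ˣ) : MK ℂ)) = 1) (hE : E ((Lu ℂ : (MK ℂ)ˣ) : MK ℂ) ≠ 1) :
    ∃ Z : RatFunc ℂ,
      IsTopZeta E ε (zetaM (map (Int.castRingHom ℂ) (minorPowers a)) {0} {c | c ≠ 0}) Z ∧
      (∀ Z', IsTopZeta E ε
        (zetaM (map (Int.castRingHom ℂ) (minorPowers a)) {0} {c | c ≠ 0}) Z' → Z' = Z) ∧
      ∀ s₀ : ℂ, Z.denom.eval s₀ = 0 →
        (∃ k j : Fin n, k ≤ j ∧ 0 < a j ∧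
          s₀ = -(((j : ℕ) : ℂ) - ((k : ℕ) : ℂ) + 1) / ((∑ i ∈ Finset.Icc k j, a i : ℕ) : ℂ)) ∧
        ∀ b : Polynomial ℂ, IsLocalBFunction (map (Int.castRingHom ℂ) (minorPowers a)) b →
          ∃ i : ℕ, b.eval (s₀ + i) = 0 :=
  Pool.Agent.K6.H33.PT.weak_top_minors Pool.Agent.K6.H93.NT.pieceQ Pool.Agent.K6.H35.NT.pieceL a
    constr_zero E ε hε hE

end Pool.Agent.Results.MP_aa7fc1_ag.NestedMinorsAllExponents
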