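import Pool.Agent.K6.H33.PT.AsmW
import Pool.Agent.K6.H93.NT.PQ
import Pool.Agent.K6.H35.NT.LB

set_option autoImplicit false

/-! # The local monodromy conjecture for all products of powers of nested Pfaffians

Let `F_1, ..., F_n` be the Pfaffians of the leading principal submatrices of even size of the generic
skew symmetric `2 n × 2 n` matrix and `f = F_1 ^ (a_1) ⋯ F_n ^ (a_n)` (`pfaffianPowers`),
a germ at the origin, with arbitrary exponents `a_1, ..., a_n ≥ 0`.

The local topological zeta function is defined as by Denef and Loeser, from the local motivic zeta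
function `Z_mot(T) = ∑_d [X_d] 𝕃 ^ (-N d) T ^ d` in `𝓜[[T]]`, `X_d` the `d`-jets with origin `0` on which
`f` has the order `d` (`zetaM f {0} {c | c ≠ 0}`), `𝓜` the Grothendieck ring of complex varieties,
localised at `𝕃`: `Z_top(s) = χ(Z_mot(𝕃 ^ (-s)))` for `s = 1, 2, 3, …`. For this, let `E` be a
homomorphism from `𝓜` to a domain `R` with `E(𝕃) ≠ 1`, such as the Hodge-Deligne polynomial
`E(u, v)`, and `ε` a homomorphism from `R` to `ℂ` with `ε(E(𝕃)) = 1`, such as `u, v ↦ 1`, so that
`ε ∘ E` is the Euler characteristic `χ` (`IsTopZeta`).

Every pole `s₀` is one of the numbers `-(2 (j - k) + 1) / (a_k + ... + a_j)`, `k ≤ j`, `a_j > 0`, and for every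
polynomial `b` of a local functional equation, in particular for the local Bernstein-Sato polynomial
`b_f`, there is an integer `i ≥ 0` with `b(s₀ + i) = 0`. By the theorem of Malgrange and Kashiwara,
`exp(2 π i s₀)` is then an eigenvalue of the monodromy of `f` at points of `f = 0` near the origin, which
is the monodromy conjecture for `f`.

No resolution of singularities is used.

* The motivic zeta function (`K6/H33/PT`). The states of the recursion are a partial row `u` with `m`
  entries and a generic skew symmetric matrix `C` of odd size `2 N + 1` (`Gs`); the polynomials are the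
  Pfaffians of the first `2 q` rows and columns of `C`, `2 q ≥ m`, and of the skew symmetric matrix of
  size `2 q + 2` with the first row `(0, u_0, ..., u_(2 q))` and `C` below it, `2 q < m`. The jets on which
  an entry `u_k`, `k < m`, is a unit are reduced by simultaneous elimination of rows and columns of `C`,
  the pivot `k` moving to the place `m - 1`, to a state with `k` instead of `m` (`piv`; `t_LS`, `t_LM`,
  `t_LL`; `pieceQ`); the jets on which the partial row vanishes at the origin are divided by the
  parameter in the entries of the partial row only (`pieceS`), which gives the factor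
  `(𝕃 - 1) / (1 - 𝕃 ^ (-m) T ^ A)`, `m = 2 l + 1`, `A` the sum of `l + 1` consecutive exponents (an entry
  on which no polynomial depends is dropped before). When the partial row is empty the first row of `C`
  becomes the partial row.
* The roots (`weak_npf`, `bf_pow`, `root_hom_ext`): the Gaussian integral of `|f| ^ (2 s)` is an
  explicit quotient of products of values of `Γ` with poles at all these numbers. For a homogeneous
  polynomial `g` the poles less than one to the left of the largest one are roots of every polynomial `b`
  with `b(s) g ^ s = P(s) g ^ (s + 1)`, by integration by parts over the ball for natural `s`, Carlson's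
  theorem and Landau's lemma. For `g = f ^ N` with large `N` these are all the numbers above, divided by
  `N`, and `b(N s) b(N s + 1) ⋯ b(N s + N - 1)` is such a polynomial for `f ^ N` if `b` is one for `f`.
  Functional equations with power series coefficients are reduced to the Weyl algebra by taking
  homogeneous components (`pieceL`).

The linear algebra of the Pfaffians (`K6/H7/PT`) and `root_hom_ext` are by helper7, `pieceQ`, `pieceL`,
`pieceJ` by helper93, helper35, helper75. -/

namespace Pool.Agent.Results.MP_aa7fc1_ag.NestedPfaffiansAllExponents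

open MvPolynomial Pool.Agent.H628R4.TP Pool.Agent.TH192.DT Pool.Agent.TH192.MT
  Pool.Agent.TH192.MU Pool.Agent.W428.MOT

/-- The generic skew symmetric `m × m` matrix; its entries above the diagonal are the variables. -/
noncomputable def skewMatrix (m : ℕ) (i j : Fin m) :
    MvPolynomial {q : Fin m × Fin m // q.1 < q.2} ℤ :=
  if h : i < j then X ⟨(i, j), h⟩ else if h : j < i then - X ⟨(j, i), h⟩ else 0

/-- The polynomial `F_1 ^ (a 0) ⋯ F_n ^ (a (n - 1))`, `F_{k + 1}` the Pfaffian of the first `2 (k + 1)`
rows and columns of the generic skew symmetric `2 n × 2 n` matrix (`pf`: expansion along the first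
row). -/
noncomputable def pfaffianPowers {n : ℕ} (a : Fin n → ℕ) :
    MvPolynomial {q : Fin (2 * n) × Fin (2 * n) // q.1 < q.2} ℤ :=
  ∏ k : Fin n, Pool.Agent.Helper929.pf (2 * ((k : ℕ) + 1))
    (Matrix.of fun i j : Fin (2 * ((k : ℕ) + 1)) =>
      skewMatrix (2 * n) (Fin.castLE (by have := k.isLt; omega) i)
        (Fin.castLE (by have := k.isLt; omega) j)) ^ a k

/-- **The monodromy conjecture for the local topological zeta function of a product of powers of nested
Pfaffians at the origin**, in terms of the roots of `b`. There is exactly one rational function `Z` with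
`Z(s) = ε(E(Z_mot(𝕃 ^ (-s))))` for `s = 1, 2, 3, …`; for each of its poles `s₀`, which is one of the
`-(2 (j - k) + 1) / (a_k + ... + a_j)`, `a_j > 0`, and every `b` which satisfies a functional equation
`b(s) f ^ s = P(s) f ^ (s + 1)`, where `P(s)` is a differential operator with formal power series
coefficients at the origin, there is a natural number `i` with `b(s₀ + i) = 0`. -/
theorem result {n : ℕ} (a : Fin n → ℕ)
    (R : Type) [CommRing R] [IsDomain R] (E : MK ℂ →+* R) (ε : R →+* ℂ)
    (hε : ε (E ((Lu ℂ : (MK ℂ)ˣ) : MK ℂ)) = 1) (hE : E ((Lu ℂ : (MK ℂ)ˣ) : MK ℂ) ≠ 1) :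
    ∃ Z : RatFunc ℂ,
      IsTopZeta E ε (zetaM (map (Int.castRingHom ℂ) (pfaffianPowers a)) {0} {c | c ≠ 0}) Z ∧
      (∀ Z', IsTopZeta E ε
        (zetaM (map (Int.castRingHom ℂ) (pfaffianPowers a)) {0} {c | c ≠ 0}) Z' → Z' = Z) ∧
      ∀ s₀ : ℂ, Z.denom.eval s₀ = 0 →
        (∃ k j : Fin n, k ≤ j ∧ 0 < a j ∧
          s₀ = -(2 * (((j : ℕ) : ℂ) - ((k : ℕ) : ℂ)) + 1) / ((∑ i ∈ Finset.Icc k j, a i : ℕ) : ℂ)) ∧
        ∀ b : Polynomial ℂ, IsLocalBFunction (map (Int.castRingHom ℂ) (pfaffianPowers a)) b →
          ∃ i : ℕ, b.eval (s₀ + i) = 0 :=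
  Pool.Agent.K6.H33.PT.weak_top_npf Pool.Agent.K6.H93.NT.pieceQ Pool.Agent.K6.H35.NT.pieceL a
    constr_zero E ε hε hE

end Pool.Agent.Results.MP_aa7fc1_ag.NestedPfaffiansAllExponents
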