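import Pool.Agent.K6.H7.UC.Fin

set_option autoImplicit false

/-!
# The monodromy conjecture for local topological zeta functions: paths with disjoint blocks suffice

The monodromy conjecture (for every pole `s` of the local topological zeta function of `f` at the origin,
`exp(2πi s)` is an eigenvalue of the monodromy at a point near the origin) for all polynomials with a
singular point at the origin is equivalent to the conjecture for the polynomials

`F_{N,M,a} = x_0 x_1 + x_1 x_2 + ⋯ + x_{N - 1} x_N + ∑_{e ∈ M} a_e ∏_{i ∈ e} x_i`,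

where `M` is a set of pairwise disjoint sets of two or three variables: a path, and in addition a sum of
products of pairwise disjoint pairs and triples of variables. So it suffices to consider cubic polynomials
in which every variable is in at most one cubic monomial.

By the theorems of Malgrange and Kashiwara the numbers `exp(2πi α)`, `α` a root of the local Bernstein-Sato
polynomial `b_f`, are the eigenvalues of the monodromies at the points near the origin. So the
conjecture says that for every pole `s` there is an integer `k` with `b_f(s + k) = 0`, and in this form it is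
stated here.

Method. (a) The polynomial `f + ∑_{j ≤ k} y_j z_j` carries the information of `f`, shifted by `k`. (b) By
polynomial automorphisms which fix the origin, and further planes `y z`, it becomes a sum of square-free
monomials of degree two and three. (c) Disconnecting the occurrences of a variable: if `h(a, b)` has no
linear terms, then `h(a, a) + y z` is equivalent to `h(a, b) + y (a + b)` up to signs, so that
every variable occurs in one monomial and in a system of equations `a + b = 0`. (d) The bipartite graph of these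
equations and the variables is a union of paths; they are joined to a single path by planes `y z`, at
the cost of further disjoint products of two variables.
-/

namespace Pool.Agent.Results.MP_aa7fc1_ag.PathsWithDisjointBlocks

open MvPolynomial Pool.Agent.W428.MOT Pool.Agent.N101.CB Pool.Agent.K6.H7.UC
open Pool.Agent.H628R4.TP (IsLocalBFunction)

/-- `R` is a topological zeta function of `f` at the origin, for the ring homomorphism `χ : 𝓜 → ℂ` with
`χ(𝕃) = 1`, for instance the Euler characteristic: the motivic zeta function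
`zt f {0} = ∑_N [X_N] 𝕃 ^ (-n N) T ^ N`, `X_N` the variety of the `N`-jets with origin `0` with `ord f = N`, is a
polynomial `Q` in the `F_(N, ν) = (𝕃 - 1) 𝕃 ^ (-ν) T ^ N / (1 - 𝕃 ^ (-ν) T ^ N)`, `N, ν ≥ 1`, with coefficients in
`𝓜`, and `R = (χ Q)(1 / (N s + ν))`. By the formula with an embedded resolution the usual topological
zeta function has this property. -/
def IsTopZeta (χ : MK ℂ →+* ℂ) {n : ℕ} (f : MvPolynomial (Fin n) ℂ) (R : RatFunc ℂ) : Prop :=
  IsTop χ (zt f {0}) R

/-- The conjecture for `f`: for every pole `s` of a local topological zeta function of `f`, and every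
polynomial `b` with a local functional equation `b(s) f ^ s = P(s) f ^ (s + 1)`, in particular the local
Bernstein-Sato polynomial, there is an integer `k` with `b(s + k) = 0`. -/
def Conj (χ : MK ℂ →+* ℂ) {n : ℕ} (f : MvPolynomial (Fin n) ℂ) : Prop :=
  ∀ R : RatFunc ℂ, IsTopZeta χ f R → ∀ s : ℂ, ¬ Reg R s →
    ∀ b : Polynomial ℂ, IsLocalBFunction f b → ∃ k : ℤ, b.eval (s + k) = 0

/-- all monomials of `f` have degree at least two: `f(0) = 0`, and `0` is a critical point of `f` -/
def Singular {n : ℕ} (f : MvPolynomial (Fin n) ℂ) : Prop :=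
  ∀ m ∈ f.support, 2 ≤ ∑ i, m i

/-- `M` is a set of pairwise disjoint sets with two or three elements, and `a_e ≠ 0` for `e ∈ M` -/
def DisjointBlocks {N : ℕ} (M : Finset (Finset (Fin (N + 1)))) (a : Finset (Fin (N + 1)) → ℂ) :
    Prop :=
  (∀ e ∈ M, 2 ≤ e.card ∧ e.card ≤ 3 ∧ a e ≠ 0) ∧
    (M : Set (Finset (Fin (N + 1)))).PairwiseDisjoint id

/-- The polynomial `x_0 x_1 + x_1 x_2 + ⋯ + x_{N - 1} x_N + ∑_{e ∈ M} a_e ∏_{i ∈ e} x_i`. -/
noncomputable def pathBlocks (N : ℕ) (M : Finset (Finset (Fin (N + 1))))
    (a : Finset (Fin (N + 1)) → ℂ) : MvPolynomial (Fin (N + 1)) ℂ :=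
  ∑ i : Fin N, X i.castSucc * X i.succ + ∑ e ∈ M, C (a e) * ∏ i ∈ e, X i

/-- **Paths with disjoint blocks suffice.** Let `χ : 𝓜 → ℂ` be a ring homomorphism with `χ(𝕃) = 1`.
(1) The conjecture holds for all nonzero polynomials without constant and linear terms, in any number of
variables, if and only if it holds for all `pathBlocks N M a` with `N ≥ 3` and `DisjointBlocks M a`. (2) For
every such `f` in `n` variables there are `k ≥ 2` and `F = pathBlocks N M a`, `N + 1 = n + 2 k`,
`DisjointBlocks M a`, such that for every topological zeta function `R` of `f` there is a topological zeta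
function `R'` of `F` with `(s + k) ((s + 1) R'(s) - 1) = s ((s + k + 1) R(s + k) - 1)` whose poles include
`s - k` for all poles `s ≠ -1` of `R`, and a local functional equation of `f` with `(s + 1) c(s)` gives one
of `F` with `(s + 1) c(s + k)`. -/
theorem result (χ : MK ℂ →+* ℂ) (hχ : χ ((Lu ℂ : (MK ℂ)ˣ) : MK ℂ) = 1) :
    ((∀ (N : ℕ) (M : Finset (Finset (Fin (N + 1)))) (a : Finset (Fin (N + 1)) → ℂ), 3 ≤ N →
        DisjointBlocks M a → Conj χ (pathBlocks N M a)) ↔
      ∀ (n : ℕ) (f : MvPolynomial (Fin n) ℂ), f ≠ 0 → Singular f → Conj χ f) ∧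
    ∀ (n : ℕ) (f : MvPolynomial (Fin n) ℂ), f ≠ 0 → Singular f →
      ∃ (N : ℕ) (M : Finset (Finset (Fin (N + 1)))) (a : Finset (Fin (N + 1)) → ℂ) (k : ℕ),
        2 ≤ k ∧ N + 1 = n + 2 * k ∧ DisjointBlocks M a ∧
        (∀ R : RatFunc ℂ, IsTopZeta χ f R → ∃ R' : RatFunc ℂ, IsTopZeta χ (pathBlocks N M a) R' ∧
          (RatFunc.X + (k : RatFunc ℂ)) * ((RatFunc.X + 1) * R' - 1) =
            RatFunc.X * ((RatFunc.X + (k : RatFunc ℂ) + 1) * shR (k : ℂ) R - 1) ∧
          ∀ s : ℂ, s ≠ -1 → ¬ Reg R s → ¬ Reg R' (s - k)) ∧
        ∀ c : Polynomial ℂ, IsLocalBFunction f ((Polynomial.X + 1) * c) →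
          IsLocalBFunction (pathBlocks N M a)
            ((Polynomial.X + 1) * c.comp (Polynomial.X + Polynomial.C (k : ℂ))) := by
  refine ⟨⟨fun h n f hf hs => ?_, fun h N M a hN hM => h _ _
      (nf_ne (by omega) (fun e he => (hM.1 e he).1) hM.2)
      ((sq_iff _).1 (sq_nf fun e he => (hM.1 e he).1))⟩,
    fun n f hf hs => ?_⟩
  · obtain ⟨N, M, a, k, hk, hN, h1, h2, h3⟩ := normal f hs
    have hsq := (sq_iff f).2 hs
    exact h3.ltw hχ (deg_ne hf hsq) hsq.const (h N M a (by omega) ⟨h1, h2⟩)
  · obtain ⟨N, M, a, k, hk, hN, h1, h2, h3⟩ := normal f hs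
    have hsq := (sq_iff f).2 hs
    refine ⟨N, M, a, k, hk, hN, ⟨h1, h2⟩, h3.ltop hsq.const χ hχ, fun c hc => ?_⟩
    exact (h3.lb (deg_ne hf hsq) hsq.const _ hc).2 c rfl

end Pool.Agent.Results.MP_aa7fc1_ag.PathsWithDisjointBlocks
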