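import Pool.Agent.K6.H39.RC.WMain

set_option autoImplicit false

/-! # The monodromy conjecture for local topological zeta functions: a class of germs which contains the
# nondegenerate polynomials and is closed under sums, products, powers, Thom-Sebastiani sums with
# generic linear forms, and stable contact equivalence

Let `𝓘` and `𝓗` be the least classes of germs at the origin of ideals and of hypersurfaces (given by
polynomials), with their local topological zeta functions, such that (`WGerms`):

* `𝓘` contains the principal ideals generated by polynomials which are nondegenerate for the compact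
  faces of their Newton polyhedra, and the ideals `BaseI`: all ideals of `ℂ[x, y]`; all principal ideals
  generated by some `h(x₁, x₂) (f₀ + ∑ y_j f_j(x₁, x₂)) ^ a`; products of ideals whose divisors are Rees
  divisors; products of ideals of linear subspaces (building sets of Rees flats); ideals generated by
  forms of the same degree in three variables, three of which are algebraically independent; ideals
  generated by forms of the same degree without a common zero outside the origin; `𝓗` contains the
  polynomials `BaseH` (generic coefficients at the vertices of the Newton polyhedron; affinely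
  independent exponents plus higher order terms), without conditions at `-1`;
* `𝓘` is closed under sums and products in disjoint sets of variables, and `(f_j)` is in `𝓘` if and
  only if `∑ y_j f_j(x)` is in `𝓗`, with new variables `y_j`;
* every principal ideal `(g)` in `𝓘` is in `𝓗` if its zeta function has at most a simple pole at `-1`, or
  if `g` is the product of two coprime non-units in the formal power series at points arbitrarily near
  the origin, in the Zariski topology (`Splits`); all the powers `g ^ k`, `k ≥ 2`, and all the products
  `g(x) g'(z)` for `(g)`, `(g')` in `𝓘` are in `𝓗`;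
* `𝓗` contains `h(x) ∏_t (∑_j y_{t, j} f_{t, j}(x)) ^ a_t` for `h ∏_t (f_{t, j})_j ^ a_t` in `𝓘`, and the
  Thom-Sebastiani sums `∑ y_j f_j(x) + g(z)` for `(f_j)` in `𝓘` and `g` in `𝓗`, `g(0) = 0`;
* `𝓗` is closed under stable contact equivalence: if `f(x) + y_1 z_1 + ⋯ + y_k z_k` becomes `g` in
  `𝓗` in suitable formal coordinates and up to a unit factor, then `f` is in `𝓗`; the same holds for the
  principal ideals in `𝓘`; variables which do not occur may be dropped.

We prove: for every hypersurface `F` of these classes and every pole `s₀` of its local topological zeta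
function there is `i ∈ ℕ` such that `s₀ - i` is a root of the Bernstein-Sato polynomial of the germ of `F`
at the origin. By the theorem of Malgrange and Kashiwara `exp (2 π i s₀)` is then an eigenvalue of the
monodromy of `F` at a point near the origin. The same is proved for all germs of holomorphic functions
(and formal power series) `f` which are stably contact equivalent to a hypersurface in `𝓘`; for instance
the functions on smooth germs of nondegenerate complete intersections and the products of powers of
the members of nondegenerate systems (see the starting result `StablyNondegenerateGerms`), to which now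
all the operations above can be applied. For the hypersurfaces in `𝓗` the poles of `(s + 1) Z(s)` are, up
to such shifts, roots of the reduced Bernstein-Sato polynomial, which belong to the reduced cohomology
of Milnor fibres.

The induction for sums, products, `∑ y_j f_j`, `∑ y_j f_j + g(z)`, `h ∏_t (∑ y f) ^ a_t` is in the starting
files (`tq_closure`). The new ingredients: (1) reduced roots at `-1` are forced for germs which split
(`rf_near`): if `g = u v`, the coefficient of `ε` in `g ^ (-ε) P(g ^ ε)` is additive in
`log g = log u + log v`, so that `B(x, -1) / g ∈ ℂ[[x]][1 / u] + ℂ[[x]][1 / v]` for every equation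
`(s + 1) B(x, s) g ^ s = P(s) g ^ (s + 1)`; (2) they are forced for `g ^ k` if `-k` is forced for `g`
(`rf_pow`); (3) a functional equation of the ideal `(f_j)` at the origin with `b(s)` gives one of
`∑ y_j f_j` with `(s + 1) b(s)` (`locU`); (4) forced reduced roots are invariant under stable contact
equivalence (`root_of_becomes`). -/

namespace Pool.Agent.Results.MP_aa7fc1_ag.StableContactClass

open MvPolynomial Pool.Agent.W574.RO Pool.Agent.K6.H39.RC
open Pool.Agent.H628R4.TP (IsLocalBFunction)

/-- There are polynomials `G r N F v h` in the coefficients, which are not zero for all admissible data,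
with the following properties. Let `WGerms G` be the classes of ideals (`false`) and of hypersurfaces
(`true`) described above.

(1) Let the principal ideal `(F)` be in the class of ideals, with the local topological zeta function
`Z`. For every pole `s₀` of `Z` there is `i ∈ ℕ` such that `b(s₀ - i) = 0` for all `b` with
`b(s) F ^ s = P(s) F ^ (s + 1)`, where `P(s)` is a differential operator with formal (in particular
convergent) power series at the origin as coefficients; so `s₀ - i` is a root of the local
Bernstein-Sato polynomial of `F`.

(2) Let the hypersurface `F` be in the class of hypersurfaces. For every pole `s₀` of `(s + 1) Z(s)` there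
is `i ∈ ℕ` such that `c(s₀ - i) = 0` for all `c` such that `(s + 1) c(s)` satisfies such an equation.

(3) Let `f` be a formal power series (for instance the germ of a holomorphic function), `f ≠ 0`,
`f(0) = 0`, such that `f(x) + y_1 z_1 + ⋯ + y_k z_k` becomes, in suitable formal coordinates and up to a
unit factor, a polynomial `g`. If the principal ideal `(g)` is in the class of ideals, with the local
topological zeta function `Z`, then the one of `f` is `Z_f = unst k Z`, and for every pole `s₀ ∉ ℕ` of
`Z_f` there is `i ∈ ℕ` such that `b(s₀ - i) = 0` for all `b` with `b(s) f ^ s = P(s) f ^ (s + 1)`, `P(s)` a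
differential operator with formal power series coefficients (all poles are negative). If `g` is in
the class of hypersurfaces, then for every pole `s₀ ≠ k` of `(s + 1) Z_f(s)` there is `i ∈ ℕ` such that
`c(s₀ - i) = 0` for all such `b(s) = (s + 1) c(s)`.

(4) If `g(x)`, `g'(z)`, `g(0) = g'(0) = 0`, are in the class of ideals (as principal ideals), then the product
`g(x) g'(z)` is in the class of hypersurfaces. -/
theorem result : ∃ G : GenCond,
    (∀ (r N : ℕ) (F : Subfield ℂ) (v : Fin r → Fin N → ℕ) (h : MvPolynomial (Fin N) F), 1 ≤ r →
      Function.Injective v → (∀ j, v j ≠ 0) → (∀ w ∈ h.support, InNP v w) → G r N F v h ≠ 0) ∧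
    (∀ (σ : Type) (F : MvPolynomial σ ℂ) (Z : RatFunc ℂ),
      WGerms G false ⟨σ, Fin 1, fun _ => F⟩ Z →
      ∀ s₀ : ℂ, Z.denom.eval s₀ = 0 → ∃ i : ℕ, ∀ b : Polynomial ℂ, IsLocalBFunction F b →
        b.eval (s₀ - i) = 0) ∧
    (∀ (σ : Type) (F : MvPolynomial σ ℂ) (Z : RatFunc ℂ),
      WGerms G true ⟨σ, Fin 1, fun _ => F⟩ Z →
      ∀ s₀ : ℂ, ((RatFunc.X + 1) * Z).denom.eval s₀ = 0 → ∃ i : ℕ, ∀ c : Polynomial ℂ,
        IsLocalBFunction F ((Polynomial.X + 1) * c) → c.eval (s₀ - i) = 0) ∧
    (∀ (N k : ℕ) (f : MvPowerSeries (Fin N) ℂ), f ≠ 0 → MvPowerSeries.constantCoeff f = 0 →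
      ∀ (g : MvPolynomial (Fin (N + (k + k))) ℂ) (Z : RatFunc ℂ), BecomesS f k g →
      (WGerms G false ⟨Fin (N + (k + k)), Fin 1, fun _ => g⟩ Z →
        ∀ s₀ : ℂ, (∀ n : ℕ, s₀ ≠ n) → (unst k Z).denom.eval s₀ = 0 → ∃ i : ℕ,
          ∀ b : Polynomial ℂ, IsFormalB f b → b.eval (s₀ - i) = 0) ∧
      (WGerms G true ⟨Fin (N + (k + k)), Fin 1, fun _ => g⟩ Z →
        ∀ s₀ : ℂ, s₀ ≠ k → ((RatFunc.X + 1) * unst k Z).denom.eval s₀ = 0 → ∃ i : ℕ,
          ∀ c : Polynomial ℂ, IsFormalB f ((Polynomial.X + 1) * c) → c.eval (s₀ - i) = 0)) ∧
    (∀ (σ τ : Type) (g : MvPolynomial σ ℂ) (g' : MvPolynomial τ ℂ) (Z W : RatFunc ℂ),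
      constantCoeff g = 0 → constantCoeff g' = 0 →
      WGerms G false ⟨σ, Fin 1, fun _ => g⟩ Z → WGerms G false ⟨τ, Fin 1, fun _ => g'⟩ W →
      WGerms G true ⟨σ ⊕ τ, Fin 1, fun _ => rename Sum.inl g * rename Sum.inr g'⟩ (Z * W)) :=
  wgerms_result

end Pool.Agent.Results.MP_aa7fc1_ag.StableContactClass
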